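import Mathlib
import Pool.Agent.Helper36.NB.Asm7

/-!
# Conjecture C of Sambale for real 2-blocks with trivial fusion (nilpotent blocks)

The Frobenius-Schur indicator of the projective indecomposable character of a real
non-principal `2`-block `B` of a finite group with defect pair `(D, E)` is the number of
involutions in `E ∖ D`, provided that `B` has the two well-known properties of the Brauer
elements of a nilpotent block.
-/

open scoped BigOperators

namespace Pool.Agent.Results.MP_363b1d_al.NilpotentPIM

open Pool.Agent.Helper36.NB

theorem result (O : ValuationSubring ℂ) (h2 : (2 : O) ∈ IsLocalRing.maximalIdeal O)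
    {G : Type} [Group G] [Fintype G]
    -- a real block `e` of `O[G]`
    (e : MonoidAlgebra O G) (he : IsBlock e) (her : inv' e = e)
    -- with defect pair `(D, E)`, `D ≠ E`
    (x : G) (hx : IsDefectClass O e x) (D E : Subgroup G) (hDE : IsDefectPair x D E)
    (hne : D ≠ E)
    -- and with the properties of a nilpotent block
    (hnil : NilpotentElements D (toK O G e))
    -- the projective indecomposable module `O[G] j` of the block
    (j : MonoidAlgebra O G) (hj : IsPrimitiveIdem j) (hje : j * e = j) :
    (∑ g : G, pim O j (g * g)) / (Nat.card G : ℂ) =
      (Nat.card {y : G // y ∈ E ∧ y ∉ D ∧ y * y = 1} : ℂ) := by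
  obtain ⟨I⟩ := exists_irrData G
  obtain ⟨J⟩ := exists_irrData D
  exact (block_main O h2 e he her x hx D E hDE hne hnil I J).2 j hj hje

end Pool.Agent.Results.MP_363b1d_al.NilpotentPIM
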