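import Mathlib
import Pool.Agent.Helper44.S3.Main

/-!
# Conjecture C of Sambale for solvable groups

The Frobenius-Schur indicator of the projective indecomposable character of a real
non-principal `2`-block `B` with exactly one irreducible Brauer character, with defect pair
`(D, E)`, of a finite solvable group is the number of involutions in `E ∖ D`.
-/

open scoped BigOperators

namespace Pool.Agent.Results.MP_363b1d_al.SolvablePIM

open Pool.Agent.Helper36.NB Pool.Agent.Helper44.S3

theorem result (O : ValuationSubring ℂ) (h2 : (2 : O) ∈ IsLocalRing.maximalIdeal O)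
    {G : Type} [Group G] [Fintype G] (hsol : Group.IsSolvable G)
    -- a real block `e` of `O[G]` with exactly one irreducible Brauer character
    (e : MonoidAlgebra O G) (he : IsBlock e) (her : inv' e = e)
    (hone : OneSimple (toK O G e))
    -- with defect pair `(D, E)`, `D ≠ E`
    (x : G) (hx : IsDefectClass O e x) (D E : Subgroup G) (hDE : IsDefectPair x D E)
    (hne : D ≠ E)
    -- the projective indecomposable module `O[G] j` of the block
    (j : MonoidAlgebra O G) (hj : IsPrimitiveIdem j) (hje : j * e = j) :
    (∑ g : G, pim O j (g * g)) / (Nat.card G : ℂ) =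
      (Nat.card {y : G // y ∈ E ∧ y ∉ D ∧ y * y = 1} : ℂ) := by
  obtain ⟨he0, hee, hec, -⟩ := id he
  haveI : IsAlgClosed (resK O) := resK_isAlgClosed O
  have hc0 : toK O G e ≠ 0 := fun h => he0 (idem_eq_zero O hee h)
  obtain ⟨S⟩ := simpleQuot_of_oneSimple (toK O G e) hc0 (by rw [← map_mul, hee])
    (fun y => by
      obtain ⟨y', rfl⟩ := toK_surjective O y
      rw [← map_mul, ← map_mul, hec]) hone
  exact (final_of_orb O h2 e hee hec S j hj hje D E
    (orb_main O h2 (Nat.card G) G le_rfl hsol e he her S x hx D E hDE hne)).1

end Pool.Agent.Results.MP_363b1d_al.SolvablePIM
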